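import Pool.Agent.Helper78.OE.GoalsC3

/-!
Project OE (MP_fc0446_an): packet OE-MGA.
-/

open MeasureTheory Pool.Agent.Helper73.OE Pool.Agent.Helper78.OE
open scoped ENNReal

namespace Pool.Agent.Helper36.OE

variable {H S L : Type} [Group H] (X : Sys H S L)

theorem GAf_congr [Fintype L] (P : Par) {O O' : Edges H S} {v : H} {s : S} {y : L}
    {f f' : Cfg H S L} (h1 : X.AS P O f v s y = X.AS P O' f' v s y)
    (h2 : ∀ i ∈ X.AS P O f v s y, X.AS P O (X.TRi P O i v s y f) v s (f v s) =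
      X.AS P O' (X.TRi P O' i v s y f') v s (f' v s)) :
    GAf X P O v s y f = GAf X P O' v s y f' := by
  classical
  unfold GAf
  rw [← h1]
  refine Finset.filter_congr fun i hi => ?_
  rw [h2 i hi]

theorem GAf_loc [Fintype L] (hL : LOCB X) (P : Par) {O O' : Edges H S} {v : H} {s : S} {y : L}
    {f f' : Cfg H S L} (h : Agr X (X.ball v (6 * P.J + P.M + 10)) O O' f f') :
    GAf X P O v s y f = GAf X P O' v s y f' := by
  have h0 : v ∈ X.ball v (6 * P.J + P.M + 10) := by
    rw [X.mem_ball, X.dist_self]; exact Nat.zero_le _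
  have hv : f v = f' v := h.1 v h0
  refine GAf_congr X P ((hL O O' f f' v _ h s y y).2.2.1 P (by omega)) fun i _ => ?_
  rw [← hv]
  have hagr : Agr X (X.ball v (2 * P.J + P.M + 1)) O O' (X.TRi P O i v s y f)
      (X.TRi P O' i v s y f') := by
    refine ⟨fun z hz => ?_, fun z t hz ht => ?_⟩
    · rw [X.mem_ball] at hz
      have hi : (i.1 : ℕ) < P.J := i.1.2
      exact (hL O O' f f' v _ h s y i.2).2.2.2.2 (2 * (i.1 : ℕ) + 1) z (by omega)
    · refine h.2 z t ?_ ?_
      · rw [X.mem_ball] at hz ⊢; omega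
      · rw [X.mem_ball] at ht ⊢; omega
  exact (hL O O' _ _ v _ hagr s (f v s) (f v s)).2.2.1 P le_rfl

theorem GAf_side [Fintype L] (hT : Pool.Agent.Helper75.OE.A_TLOC)
    (hM : Pool.Agent.Helper75.OE.A_TRM) (P : Par) {O O' : Edges H S} {v : H} {s : S} {y : L}
    {f f' : Cfg H S L} (hs : X.Sym O) (hf : X.MA O Set.univ f)
    (h : Agr X (X.Sd v s) O O' f f') (hy : f v s ≠ y) :
    GAf X P O v s y f = GAf X P O' v s y f' := by
  have hv : f v = f' v := h.1 v (X.self_mem_Sd v s)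
  have hMA : X.MA O (X.Sd v s) f := fun a t _ _ ho => hf a t trivial trivial ho
  have hz : ∀ z ∈ X.Sd v s, f' z = f z := fun z hz => (h.1 z hz).symm
  have hO : ∀ z r, z ∈ X.Sd v s → X.nb z r ∈ X.Sd v s → (O' z r ↔ O z r) :=
    fun z r h1 h2 => (h.2 z r h1 h2).symm
  refine GAf_congr X P (side_AS X hf P h hy) fun i hi => ?_
  rw [← hv]
  have hav : X.Av O P.M f (2 * (i.1 : ℕ) + 1) v s y i.2 := by
    simp only [Sys.AS, Finset.mem_filter, Finset.mem_univ, true_and] at hi
    exact hi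
  obtain ⟨-, t2⟩ := hT H S L X O O' P.M (2 * (i.1 : ℕ) + 1) v s y i.2 f f' (Ne.symm hy) hMA hz hO
  obtain ⟨-, t3⟩ := t2 hav
  obtain ⟨m1, m2⟩ := hM H S L X O P.M (2 * (i.1 : ℕ) + 1) v s y i.2 f hs (Ne.symm hy) hMA hav
  unfold Sys.TRi Sys.AS
  ext j
  simp only [Finset.mem_filter, Finset.mem_univ, true_and]
  refine (hT H S L X O O' P.M (2 * (j.1 : ℕ) + 1) v s (f v s) j.2 _ _ ?_ m2 t3 hO).1.symm
  rw [m1]
  exact hy

variable [Fintype S] [Fintype L]

theorem mga {ε : ℝ} {μ : Measure (St H S L)} (C : Ctx X ε μ)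
    (hT : Pool.Agent.Helper75.OE.A_TLOC) (hM : Pool.Agent.Helper75.OE.A_TRM) : MGA X ε := by
  intro P v s y
  constructor
  · have := (C.meas (fun O f => ((P.cap - (GAf X P O v s y f).card : ℕ) : ℝ≥0∞) / P.cap)
      (X.ball v (6 * P.J + P.M + 10)) (X.finite_ball v _) (fun O O' f f' h => by
        simp only [GAf_loc X C.locb P h]) ε).1
    exact this
  · intro b hb x hxy w w' h1 h2
    have hA : X.Past (X.nb v s) (X.bar s) = insert (X.nb v s) (X.Sd v s) := X.Past_nb v s
    rw [hA] at h1 h2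
    have hvm : v ∈ insert (X.nb v s) (X.Sd v s) := Set.mem_insert_of_mem _ (X.self_mem_Sd v s)
    have hnm : X.nb v s ∈ insert (X.nb v s) (X.Sd v s) := Set.mem_insert _ _
    have e1 : w.1 v = w'.1 v := h1 v hvm
    have e2 : w.1 (X.nb v s) = w'.1 (X.nb v s) := h1 _ hnm
    have e3 : w.2 (v, s) = w'.2 (v, s) := h2 v s hvm hnm
    have e4 : w.2 (X.rev (v, s)) = w'.2 (X.rev (v, s)) := by
      refine h2 _ _ hnm ?_
      rw [X.nb_bar]; exact hvm
    have hG : Gxy X b v s x y w = Gxy X b v s x y w' := by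
      unfold Gxy
      rw [e1, e2, e3, e4]
    by_cases h0 : Gxy X b v s x y w = 0
    · have h0' := h0
      rw [hG] at h0'
      show Gxy X b v s x y w * _ = Gxy X b v s x y w' * _
      rw [h0, h0', zero_mul, zero_mul]
    · have hx : w.1 v s = x := by
        by_contra hne
        apply h0
        unfold Gxy
        rw [ind_false hne, zero_mul, mul_zero]
      have hagr : Agr X (X.Sd v s) (Om X ε w) (Om X ε w') w.1 w'.1 :=
        (Om_agr X h1 h2).mono X (Set.subset_insert _ _)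
      have hGA := GAf_side X hT hM P (Om_symm X ε w) (MA_Om X ε w) hagr (y := y)
        (by rw [hx]; exact hxy)
      show Gxy X b v s x y w * fb X P ε v s y w = Gxy X b v s x y w' * fb X P ε v s y w'
      unfold fb
      rw [hG, hGA]

end Pool.Agent.Helper36.OE
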